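import Pool.Agent.H966R2.CircCFG

/-!
# A tradeoff between circuit size and representation functions

If a decomposable circuit (a nonuniform grammar) with few gates accepts many digit strings, all of
them representing elements of `A`, then `r_A` takes a large value. Consequently the two forms of
the Erdős–Turán conjecture hold for every set whose elements below `b^n` are recognised, for
infinitely many `n`, by decomposable circuits with `b^(o(n))` gates; for context-free languages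
such circuits with `O(n^3)` gates exist (`contextFree_circuits`).
-/

set_option autoImplicit false

namespace Pool.Agent.Results.MP_12a1af_nt.CircuitTradeoff

open Filter Finset Pool.Agent.H966R2.Circ

/-- the growth hypotheses of the two forms of the Erdős–Turán conjecture -/
def Thick (A : Set ℕ) : Prop :=
  (∀ᶠ x in atTop, 1 ≤ repCount A x) ∨
  (A.Infinite ∧ ∃ C : ℕ, ∀ n, Nat.nth (· ∈ A) n ≤ C * (n + 1) ^ 2)

theorem count_of_repr {A : Set ℕ} (h : ∀ᶠ x in atTop, 1 ≤ repCount A x) :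
    ∃ c : ℝ, 0 < c ∧ ∀ᶠ N : ℕ in atTop,
      c * (N : ℝ) ^ (1 / (2 : ℕ) : ℝ) ≤ ((A ∩ Set.Iio N).ncard : ℝ) := by
  obtain ⟨n0, hn0⟩ := eventually_atTop.1 h
  refine ⟨1 / 2, by norm_num, ?_⟩
  filter_upwards [eventually_ge_atTop (2 * n0 + 1)] with N hN
  have hfin : (A ∩ Set.Iio N).Finite := (Set.finite_Iio N).subset fun a ha => ha.2
  have h1 : ∀ x, ∃ p : ℕ × ℕ, n0 ≤ x → p.1 ∈ A ∧ p.2 ∈ A ∧ p.1 + p.2 = x := by
    intro x
    by_cases hx : n0 ≤ x
    · have h2 := hn0 x hx
      have h3 : {p : ℕ × ℕ | p.1 ∈ A ∧ p.2 ∈ A ∧ p.1 + p.2 = x}.Nonempty := by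
        by_contra h4
        rw [Set.not_nonempty_iff_eq_empty] at h4
        unfold repCount at h2
        rw [h4, Set.ncard_empty] at h2
        omega
      obtain ⟨p, hp⟩ := h3
      exact ⟨p, fun _ => hp⟩
    · exact ⟨(0, 0), fun h => absurd h hx⟩
  choose p hp using h1
  have h2 : (N - n0) ≤ ((A ∩ Set.Iio N).ncard) ^ 2 := by
    have h3 : ((Finset.Ico n0 N).image p : Finset (ℕ × ℕ)) ⊆ hfin.toFinset ×ˢ hfin.toFinset := by
      intro q hq
      obtain ⟨x, hx, rfl⟩ := Finset.mem_image.1 hq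
      rw [Finset.mem_Ico] at hx
      obtain ⟨h4, h5, h6⟩ := hp x hx.1
      rw [Finset.mem_product, Set.Finite.mem_toFinset, Set.Finite.mem_toFinset]
      exact ⟨⟨h4, by simp only [Set.mem_Iio]; omega⟩, ⟨h5, by simp only [Set.mem_Iio]; omega⟩⟩
    have h4 := Finset.card_le_card h3
    rw [Finset.card_product, ← Set.ncard_eq_toFinset_card _ hfin,
      Finset.card_image_of_injOn, Nat.card_Ico] at h4
    · rw [sq]; exact h4
    · intro x hx y hy hxy
      rw [Finset.coe_Ico, Set.mem_Ico] at hx hy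
      have h5 := (hp x hx.1).2.2
      have h6 := (hp y hy.1).2.2
      rw [← h5, ← h6, hxy]
  have h3 : (N : ℝ) ≤ 4 * ((A ∩ Set.Iio N).ncard : ℝ) ^ 2 := by
    have h4 : N ≤ 4 * ((A ∩ Set.Iio N).ncard) ^ 2 := by omega
    exact_mod_cast h4
  have h4 : (1 / (2 : ℕ) : ℝ) = 1 / 2 := by norm_num
  rw [h4, ← Real.sqrt_eq_rpow]
  have h5 : Real.sqrt N ≤ 2 * ((A ∩ Set.Iio N).ncard : ℝ) := by
    apply Real.sqrt_le_iff.2
    constructor
    · positivity
    · nlinarith
  linarith

theorem count_of_nth {A : Set ℕ} (hinf : A.Infinite)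
    (h : ∃ C : ℕ, ∀ n, Nat.nth (· ∈ A) n ≤ C * (n + 1) ^ 2) :
    ∃ c : ℝ, 0 < c ∧ ∀ᶠ N : ℕ in atTop,
      c * (N : ℝ) ^ (1 / (2 : ℕ) : ℝ) ≤ ((A ∩ Set.Iio N).ncard : ℝ) := by
  obtain ⟨C, hC⟩ := h
  have hC1 : (0 : ℝ) < Real.sqrt (C + 1) := Real.sqrt_pos.2 (by positivity)
  refine ⟨1 / (2 * Real.sqrt (C + 1)), by positivity, ?_⟩
  filter_upwards [eventually_ge_atTop (16 * (C + 1))] with N hN
  have hfin : (A ∩ Set.Iio N).Finite := (Set.finite_Iio N).subset fun a ha => ha.2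
  set j : ℕ := Nat.sqrt ((N - 1) / (C + 1)) with hj
  have h1 : C * j ^ 2 < N := by
    have h2 : j * j ≤ (N - 1) / (C + 1) := Nat.sqrt_le _
    have h3 : (C + 1) * ((N - 1) / (C + 1)) ≤ N - 1 := Nat.mul_div_le _ _
    have h4 : (C + 1) * (j * j) ≤ (C + 1) * ((N - 1) / (C + 1)) := Nat.mul_le_mul_left _ h2
    have h5 : C * j ^ 2 ≤ (C + 1) * (j * j) := by rw [sq]; exact Nat.mul_le_mul_right _ (by omega)
    omega
  have h2 : j ≤ (A ∩ Set.Iio N).ncard := by
    have h3 : (((Finset.range j).image (Nat.nth (· ∈ A)) : Finset ℕ) : Set ℕ) ⊆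
        A ∩ Set.Iio N := by
      intro a ha
      simp only [Finset.coe_image, Set.mem_image, Finset.mem_coe, Finset.mem_range] at ha
      obtain ⟨i, hi, rfl⟩ := ha
      refine ⟨Nat.nth_mem_of_infinite hinf i, lt_of_le_of_lt (hC i) (lt_of_le_of_lt ?_ h1)⟩
      exact Nat.mul_le_mul_left _ (Nat.pow_le_pow_left (by omega) 2)
    have h4 := Set.ncard_le_ncard h3 hfin
    rw [Set.ncard_coe_finset, Finset.card_image_of_injective _
      (Nat.nth_injective (p := fun x => x ∈ A) hinf), Finset.card_range] at h4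
    exact h4
  have h3 : N ≤ (C + 1) * (j + 1) ^ 2 := by
    have h4 : (N - 1) / (C + 1) < (j + 1) * (j + 1) := Nat.lt_succ_sqrt _
    have h5 : N - 1 < (C + 1) * ((N - 1) / (C + 1) + 1) := Nat.lt_mul_div_succ _ (by omega)
    have h6 : (C + 1) * ((N - 1) / (C + 1) + 1) ≤ (C + 1) * ((j + 1) * (j + 1)) :=
      Nat.mul_le_mul_left _ h4
    rw [sq]
    omega
  have h3' : (N : ℝ) ≤ (C + 1) * ((j : ℝ) + 1) ^ 2 := by exact_mod_cast h3
  have hj1 : 1 ≤ j := by
    by_contra hcon
    have hj0 : j = 0 := by omega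
    rw [hj0] at h3
    omega
  have hj1' : (1 : ℝ) ≤ j := by exact_mod_cast hj1
  have h4 : (1 / (2 : ℕ) : ℝ) = 1 / 2 := by norm_num
  rw [h4, ← Real.sqrt_eq_rpow]
  have h5 : Real.sqrt N ≤ Real.sqrt (C + 1) * ((j : ℝ) + 1) := by
    apply Real.sqrt_le_iff.2
    constructor
    · positivity
    · rw [mul_pow, Real.sq_sqrt (by positivity)]
      exact h3'
  have h6 : (j : ℝ) ≤ ((A ∩ Set.Iio N).ncard : ℝ) := by exact_mod_cast h2
  rw [div_mul_eq_mul_div, one_mul, div_le_iff₀ (by positivity)]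
  nlinarith

theorem count_of_thick {A : Set ℕ} (h : Thick A) :
    ∃ c : ℝ, 0 < c ∧ ∀ᶠ N : ℕ in atTop,
      c * (N : ℝ) ^ (1 / (2 : ℕ) : ℝ) ≤ ((A ∩ Set.Iio N).ncard : ℝ) := by
  rcases h with h | ⟨h1, h2⟩
  · exact count_of_repr h
  · exact count_of_nth h1 h2

/-- **Tradeoff between circuit size and representation functions.**
(1) Let `C` be a decomposable circuit in the `n ≥ 1` letters of a word over `{0, ..., q - 1}`,
`q ≥ 2`, all of whose accepted words have their value `∑ i, wt i (w i)` in `A`, different accepted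
words having different values. If `C` accepts at least `q^(ε n)` words, `0 < ε ≤ 1`, then
`r_A(x) ≥ 2 ^ (ε² n / (24 (1 + log_q (s + 1))))` for a sum `x` of two of the values, where `s` is
the number of gates.
(2) Let `r_A(x) ≥ 1` for all large `x`, or `A` infinite with `a_n ≤ C (n+1)^2`. Then, for every
base `b` and all large `n`, `A` has at least `b^(n/3)` elements below `b^n`, and for every
decomposable circuit with `s` gates in the base-`b` digits that accepts only elements of `A`, and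
at least `b^(n/3)` of them, there is `x < 2 b^n` with
`r_A(x) ≥ 2 ^ (n / (216 (1 + log_b (s + 1))))`. -/
theorem result (A : Set ℕ) :
    (∀ (n q : ℕ) (ι : Type) [Fintype ι] (wt : Fin n → Fin q → ℕ) (C : ι → Gate n q ι) (g : ι)
      (ε : ℝ), 1 ≤ n → 2 ≤ q → 0 < ε → ε ≤ 1 → Decomposable C →
      (∀ w, Acc C w g → value wt w ∈ A) → Set.InjOn (value wt) {w | Acc C w g} →
      (q : ℝ) ^ (ε * n) ≤ ({w | Acc C w g}.ncard : ℝ) →
      ∃ u v, Acc C u g ∧ Acc C v g ∧
        (2 : ℝ) ^ (ε ^ 2 * n / (24 * (1 + Real.logb q (Fintype.card ι + 1)))) ≤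
          repCount A (value wt u + value wt v)) ∧
    (Thick A → ∀ b : ℕ, 2 ≤ b → ∀ᶠ n : ℕ in atTop,
      (b : ℝ) ^ ((n : ℝ) / 3) ≤ ((A ∩ Set.Iio (b ^ n)).ncard : ℝ) ∧
      ∀ (ι : Type) [Fintype ι] (C : ι → Gate n b ι) (g : ι), Decomposable C →
        (∀ w, Acc C w g → numVal w ∈ A) →
        (b : ℝ) ^ ((n : ℝ) / 3) ≤ ({w | Acc C w g}.ncard : ℝ) →
        ∃ x < 2 * b ^ n, (2 : ℝ) ^ ((n : ℝ) / (216 * (1 + Real.logb b (Fintype.card ι + 1)))) ≤
          repCount A x) := by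
  constructor
  · intro n q ι _ wt C g ε hn hq h0 h1 hC hA hinj hcount
    exact tradeoff wt hC g hA hinj hq hn h0 h1 hcount
  · intro hA b hb
    obtain ⟨c, hc, hcount⟩ := count_of_thick hA
    have e3 : ((2 : ℕ) : ℝ) + 1 = 3 := by norm_num
    filter_upwards [thick_tradeoff (h := 2) (by norm_num) hc hcount hb] with n hn
    rw [e3] at hn
    refine ⟨hn.1, fun ι _ C g hC hacc hN => ?_⟩
    obtain ⟨x, hx, h1⟩ := hn.2 ι C g hC hacc hN
    refine ⟨x, hx, le_trans (le_of_eq ?_) h1⟩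
    congr 1
    norm_num

/-- Example: `A` satisfies the growth hypothesis of the Erdős–Turán conjecture and, for infinitely
many `n`, its elements below `b^n` are given by the words of length `n` of a context-free
language. Then `r_A` is unbounded. -/
theorem contextFree {A : Set ℕ} (hA : Thick A) {b : ℕ} (hb : 2 ≤ b) {L : Language (Fin b)}
    (hL : L.IsContextFree)
    (hAL : ∃ᶠ n : ℕ in atTop, ∀ w : Fin n → Fin b, List.ofFn w ∈ L ↔ numVal w ∈ A) (R : ℕ) :
    ∃ x, R ≤ repCount A x := by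
  obtain ⟨c, hc⟩ := contextFree_circuits hL
  have hb1 : (1 : ℝ) < b := by exact_mod_cast (by omega : 1 < b)
  have hb0 : (0 : ℝ) < b := by linarith
  have h2 := (result A).2 hA b hb
  -- the exponent tends to infinity
  have hlim : ∀ᶠ n : ℕ in atTop, (R : ℝ) ≤
      (2 : ℝ) ^ ((n : ℝ) / (216 * (1 + Real.logb b ((c * (n + 1) ^ 3 : ℕ) + 1)))) := by
    have h3 : ∀ᶠ n : ℕ in atTop, (216 * R : ℝ) *
        (1 + (Real.log (c + 1) + 3 * Real.log (n + 1)) / Real.log b) ≤ n := by
      have h4 : Tendsto (fun n : ℕ => Real.log ((n : ℝ) + 1) / ((n : ℝ) + 1)) atTop (nhds 0) := by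
        have h5 : Tendsto (fun x : ℝ => Real.log x / x) atTop (nhds 0) :=
          Real.isLittleO_log_id_atTop.tendsto_div_nhds_zero
        exact h5.comp (tendsto_natCast_atTop_atTop.atTop_add tendsto_const_nhds)
      have h6 : Tendsto (fun n : ℕ => (1 : ℝ) / ((n : ℝ) + 1)) atTop (nhds 0) :=
        tendsto_one_div_add_atTop_nhds_zero_nat
      set K : ℝ := (216 * R : ℝ) * (1 + Real.log (c + 1) / Real.log b) + 1 with hK
      set K' : ℝ := (216 * R : ℝ) * 3 / Real.log b with hK'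
      have h7 : Tendsto (fun n : ℕ => K * ((1 : ℝ) / ((n : ℝ) + 1)) +
          K' * (Real.log ((n : ℝ) + 1) / ((n : ℝ) + 1))) atTop (nhds (K * 0 + K' * 0)) :=
        (h6.const_mul K).add (h4.const_mul K')
      have h8 : K * 0 + K' * 0 < (1 : ℝ) := by norm_num
      filter_upwards [h7.eventually_lt_const h8] with n hn
      have hn1 : (0 : ℝ) < (n : ℝ) + 1 := by positivity
      have h9 : K * ((1 : ℝ) / ((n : ℝ) + 1)) + K' * (Real.log ((n : ℝ) + 1) / ((n : ℝ) + 1)) =
          (K + K' * Real.log ((n : ℝ) + 1)) / ((n : ℝ) + 1) := by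
        field_simp
      rw [h9, div_lt_one hn1] at hn
      have h10 : (216 * R : ℝ) * (1 + (Real.log (c + 1) + 3 * Real.log (n + 1)) / Real.log b) =
          K - 1 + K' * Real.log ((n : ℝ) + 1) := by
        rw [hK, hK']
        ring
      rw [h10]
      linarith
    filter_upwards [h3] with n hn
    have hlogb : 0 < Real.log b := Real.log_pos hb1
    have hcn : ((c * (n + 1) ^ 3 : ℕ) : ℝ) + 1 ≤ ((c : ℝ) + 1) * ((n : ℝ) + 1) ^ 3 := by
      push_cast
      have : (1 : ℝ) ≤ ((n : ℝ) + 1) ^ 3 := one_le_pow₀ (by linarith [(Nat.cast_nonneg n : (0 : ℝ) ≤ n)])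
      nlinarith
    have h11 : Real.logb b ((c * (n + 1) ^ 3 : ℕ) + 1) ≤
        (Real.log (c + 1) + 3 * Real.log (n + 1)) / Real.log b := by
      rw [Real.logb]
      apply div_le_div_of_nonneg_right _ hlogb.le
      have h12 : Real.log ((c + 1) * ((n : ℝ) + 1) ^ 3) =
          Real.log (c + 1) + 3 * Real.log (n + 1) := by
        rw [Real.log_mul (by positivity) (by positivity), Real.log_pow]
        norm_num
      rw [← h12]
      exact Real.log_le_log (by positivity) hcn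
    have h13 : 0 ≤ Real.logb b ((c * (n + 1) ^ 3 : ℕ) + 1) :=
      Real.logb_nonneg hb1 (by
        have : (0 : ℝ) ≤ ((c * (n + 1) ^ 3 : ℕ) : ℝ) := Nat.cast_nonneg _
        linarith)
    have h14 : (R : ℝ) ≤ (n : ℝ) / (216 * (1 + Real.logb b ((c * (n + 1) ^ 3 : ℕ) + 1))) := by
      rw [le_div_iff₀ (by positivity)]
      refine le_trans ?_ hn
      have : (R : ℝ) * (216 * (1 + Real.logb b ((c * (n + 1) ^ 3 : ℕ) + 1))) =
          216 * R * (1 + Real.logb b ((c * (n + 1) ^ 3 : ℕ) + 1)) := by ring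
      rw [this]
      gcongr
    calc (R : ℝ) ≤ (2 : ℝ) ^ (R : ℝ) := by
          rw [Real.rpow_natCast]
          exact_mod_cast Nat.lt_two_pow_self.le
      _ ≤ _ := Real.rpow_le_rpow_of_exponent_le (by norm_num) h14
  obtain ⟨n, hn1, hn2, hn3⟩ := (hAL.and_eventually (h2.and hlim)).exists
  obtain ⟨ι, _, C, g, hC, hcard, hacc⟩ := hc n
  have hacc' : ∀ w, Acc C w g ↔ numVal w ∈ A := fun w => (hacc w).trans (hn1 w)
  have hcount : ((A ∩ Set.Iio (b ^ n)).ncard : ℝ) = ({w | Acc C w g}.ncard : ℝ) := by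
    have h1 : A ∩ Set.Iio (b ^ n) = numVal '' {w : Fin n → Fin b | Acc C w g} := by
      ext x
      constructor
      · rintro ⟨hx, hlt⟩
        obtain ⟨w, hw⟩ := exists_val (n := n) (b := b) hlt
        exact ⟨w, (hacc' w).2 (by rw [hw]; exact hx), hw⟩
      · rintro ⟨w, hw, rfl⟩
        exact ⟨(hacc' w).1 hw, val_lt w⟩
    rw [h1, Set.ncard_image_of_injective _ Pool.Agent.H966R2.Circ.val_injective]
  obtain ⟨x, _, hx⟩ := hn2.2 ι C g hC (fun w hw => (hacc' w).1 hw) (by rw [← hcount]; exact hn2.1)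
  refine ⟨x, ?_⟩
  have h15 : (R : ℝ) ≤ repCount A x := by
    refine hn3.trans (le_trans ?_ hx)
    apply Real.rpow_le_rpow_of_exponent_le (by norm_num)
    have h16 : (1 : ℝ) ≤ Fintype.card ι := by
      exact_mod_cast (Fintype.card_pos_iff.2 ⟨g⟩ : 0 < Fintype.card ι)
    have h17 : 0 ≤ Real.logb b ((Fintype.card ι : ℝ) + 1) := Real.logb_nonneg hb1 (by linarith)
    have h18 : Real.logb b ((Fintype.card ι : ℝ) + 1) ≤
        Real.logb b ((c * (n + 1) ^ 3 : ℕ) + 1) := by
      apply Real.logb_le_logb_of_le hb1 (by linarith)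
      have : (Fintype.card ι : ℝ) ≤ ((c * (n + 1) ^ 3 : ℕ) : ℝ) := by exact_mod_cast hcard
      linarith
    gcongr
  exact_mod_cast h15

end Pool.Agent.Results.MP_12a1af_nt.CircuitTradeoff
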