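import Mathlib
import Pool.Agent.H380R2.Energy
import Pool.Agent.H380R2.Assembly
import Pool.Agent.H380R2.Chain
import Pool.Agent.H380R2.Sieve
import Pool.Agent.H78R2.ET.Power

/-!
# The Erdős–Turán conjecture: sets of irregular integers

`r_A(n) = rep A n` is the number of ordered pairs of elements of `A` with sum `n`.

For a sequence `u` and `ε > 0` let `N = Irregular u ε` be the set of all integers `a` for which
the numbers `a / u j` (`j` with `u j ≤ a`) have discrepancy at least `ε` modulo one.  If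
`u j = g ^ j`, then `N` consists of the integers which are not `ε`-normal in base `g`: for instance
it contains all `a` such that some block of `s` digits does not have the frequency
`g ^ (-s)` (up to `ε`) among the blocks of base `g` digits of `a`
(see `Pool.Agent.H78R2.ET.abnormal_subset`).  Let `u` be lacunary.

1. There is `c > 0` such that every set `A ⊆ ℕ` and every large `x` satisfy
   `|A ∩ N ∩ [0,x]| ^ 2 ≤ x exp (-c #{j : u j ≤ x}) max_{n ≤ 2 x} r_A(n)`.
2. Hence, for `u j = β ^ j`: if `|A ∩ N ∩ [0,x]| ≥ x ^ ((1 - δ) / 2)` for infinitely many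
   `x`, in particular if `A ⊆ N` is infinite and `a_n ≤ C n ^ (2 + δ)` for infinitely many `n`,
   then `r_A(n) ≥ n ^ δ` for infinitely many `n`.  So Q1 and Q2 hold for all `A ⊆ N`.
3. If `r_A` is bounded and `S` is a finite union of small sets (thin, or with a
   long gap modulo infinitely many `m`, or consisting of irregular integers), then
   `|A ∩ S ∩ [0,x]| = o(√x)`; so Q1 and Q2 hold for all `A ⊆ S`.
4. Well-distribution modulo most `d ≤ √x`, and more generally modulo most members of any set of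
   moduli with pairwise least common multiples at most `x`.
-/

set_option autoImplicit false

open Filter Topology

namespace Pool.Agent.Results.MP_12a1af_nt.IrregularSets

open Pool.Agent.H380R2 Pool.Agent.H78R2.ET

/-- `S` is thin: either along a divisibility chain, or along a set of pairwise coprime moduli. -/
def Thin (S : Set ℕ) : Prop := ThinAlongChain S ∨ SieveThin S

/-- For some `δ > 0` and infinitely many `m`, the set `S` has only finitely many elements in some
interval of at least `δ m` consecutive residue classes modulo `m`. -/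
def Gappy (S : Set ℕ) : Prop :=
  ∃ δ : ℝ, 0 < δ ∧ ∃ᶠ m : ℕ in atTop, ∃ v w : ℕ, v + δ * m ≤ w ∧ w ≤ m ∧
    {a ∈ S | v ≤ a % m ∧ a % m < w}.Finite

/-- `S` is small: thin, or gappy, or a set of irregular integers with respect to some lacunary
sequence. -/
def Small (S : Set ℕ) : Prop :=
  Thin S ∨ Gappy S ∨ ∃ (u : ℕ → ℝ) (q ε : ℝ), 0 < u 0 ∧ 1 < q ∧
    (∀ j, q * u j ≤ u (j + 1)) ∧ 0 < ε ∧ S ⊆ Irregular u ε

/-- Base `g` digit sets with at most `√g` digits (one of them `0`) are thin along `1, g, g², ...`: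
the definition `ThinAlongChain` is met by a rich family of sets.  (Example only.) -/
theorem digitSet_thin (g : ℕ) (hg : 2 ≤ g) (D : Finset ℕ) (h0 : 0 ∈ D)
    (hcard : D.card ^ 2 ≤ g) : ThinAlongChain {n | ∀ d ∈ Nat.digits g n, d ∈ D} := by
  classical
  set S : Set ℕ := {n | ∀ d ∈ Nat.digits g n, d ∈ D} with hS
  have hmem0 : (0 : ℕ) ∈ S := by
    rw [hS]
    intro d hd
    simp at hd
  have hdiv : ∀ a ∈ S, a % g ∈ D ∧ a / g ∈ S := by
    intro a ha
    rcases Nat.eq_zero_or_pos a with rfl | hpos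
    · simp only [Nat.zero_mod, Nat.zero_div]
      exact ⟨h0, hmem0⟩
    · have hd : Nat.digits g a = (a % g) :: Nat.digits g (a / g) :=
        Nat.digits_def' (by omega) hpos
      have ha' : ∀ d ∈ Nat.digits g a, d ∈ D := ha
      rw [hd] at ha'
      refine ⟨ha' _ (List.mem_cons_self), ?_⟩
      intro d hd'
      exact ha' d (List.mem_cons_of_mem _ hd')
  have hfin : ∀ j, ((fun a => a % g ^ j) '' S).Finite := by
    intro j
    apply Set.Finite.subset (Set.finite_Iio (g ^ j))
    rintro r ⟨a, _, rfl⟩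
    exact Nat.mod_lt _ (Nat.pow_pos (by omega))
  have hle : ∀ j, numClasses S (g ^ j) ≤ D.card ^ j := by
    intro j
    induction j with
    | zero =>
      unfold numClasses
      have : ((fun a => a % g ^ 0) '' S) ⊆ {0} := by
        rintro r ⟨a, _, rfl⟩
        simp [Nat.mod_one]
      refine le_trans (Set.ncard_le_ncard this (Set.finite_singleton _)) ?_
      simp
    | succ j ih =>
      unfold numClasses at ih ⊢
      have hsub : ((fun a => a % g ^ (j + 1)) '' S) ⊆
          (fun p : ℕ × ℕ => p.1 + g * p.2) '' ((D : Set ℕ) ×ˢ ((fun a => a % g ^ j) '' S)) := by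
        rintro r ⟨a, ha, rfl⟩
        obtain ⟨h1, h2⟩ := hdiv a ha
        refine ⟨(a % g, (a / g) % g ^ j), ⟨h1, ⟨a / g, h2, rfl⟩⟩, ?_⟩
        simp only
        rw [pow_succ', Nat.mod_mul]
      refine le_trans (Set.ncard_le_ncard hsub ?_) ?_
      · exact Set.Finite.image _ (Set.Finite.prod (Finset.finite_toSet D) (hfin j))
      refine le_trans (Set.ncard_image_le
        (Set.Finite.prod (Finset.finite_toSet D) (hfin j))) ?_
      rw [Set.ncard_prod, Set.ncard_coe_finset, pow_succ']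
      exact Nat.mul_le_mul_left _ ih
  refine ⟨fun j => g ^ j, by simp, fun j => ⟨pow_dvd_pow g (by omega),
    Nat.pow_lt_pow_right (by omega) (by omega)⟩, ?_⟩
  intro hsum
  have hlim := hsum.tendsto_atTop_zero
  have hge : ∀ j, (1 : ℝ) ≤ ((g ^ j : ℕ) : ℝ) / (numClasses S (g ^ j) : ℝ) ^ 2 := by
    intro j
    have hpos : 0 < numClasses S (g ^ j) := by
      unfold numClasses
      rw [Set.ncard_pos (hfin j)]
      exact ⟨_, 0, hmem0, rfl⟩
    rw [le_div_iff₀ (by have : (0 : ℝ) < numClasses S (g ^ j) := by exact_mod_cast hpos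
                        positivity), one_mul]
    have h1 : (numClasses S (g ^ j)) ^ 2 ≤ g ^ j := by
      calc (numClasses S (g ^ j)) ^ 2 ≤ (D.card ^ j) ^ 2 := Nat.pow_le_pow_left (hle j) 2
        _ = (D.card ^ 2) ^ j := by rw [← pow_mul, ← pow_mul, mul_comm]
        _ ≤ g ^ j := Nat.pow_le_pow_left hcard j
    exact_mod_cast h1
  have := ge_of_tendsto' hlim hge
  linarith

/-- Example of sieve thin sets: `S` misses at least `δ p` classes modulo `p`, for all `p` in a set
`P` of primes with divergent reciprocal sum. -/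
theorem sieveThin_of_primes (S : Set ℕ) (hne : S.Nonempty) (P : Set ℕ)
    (hP : ∀ p ∈ P, p.Prime) (hdiv : ¬ Summable (fun p : P => 1 / ((p : ℕ) : ℝ))) (δ : ℝ)
    (hδ : 0 < δ) (hS : ∀ p ∈ P, (numClasses S p : ℝ) ≤ (1 - δ) * p) : SieveThin S := by
  refine ⟨P, fun p hp => (hP p hp).pos, ?_, ?_⟩
  · intro p hp q hq hpq
    exact (Nat.coprime_primes (hP p hp) (hP q hq)).2 hpq
  · intro hsum
    apply hdiv
    have hkey : ∀ p : P, 1 / ((p : ℕ) : ℝ) ≤ (1 / δ ^ 2) *
        ((((p : ℕ) : ℝ) / (numClasses S p : ℝ) - 1) ^ 2 / ((p : ℕ) : ℝ)) := by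
      intro p
      have hp0 : (0 : ℝ) < ((p : ℕ) : ℝ) := by exact_mod_cast (hP p p.2).pos
      have hρ : (0 : ℝ) < (numClasses S p : ℝ) := by
        have hfin : ((fun a => a % (p : ℕ)) '' S).Finite := by
          apply Set.Finite.subset (Set.finite_Iio (p : ℕ))
          rintro r ⟨a, _, rfl⟩
          exact Nat.mod_lt _ (hP p p.2).pos
        have : 0 < numClasses S p := by
          unfold numClasses
          rw [Set.ncard_pos hfin]
          exact hne.image _
        exact_mod_cast this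
      have h1 := hS p p.2
      have h2 : δ ≤ ((p : ℕ) : ℝ) / (numClasses S p : ℝ) - 1 := by
        have h3 : 1 + δ ≤ ((p : ℕ) : ℝ) / (numClasses S p : ℝ) := by
          rw [le_div_iff₀ hρ]
          have h4 : (1 + δ) * (numClasses S p : ℝ) ≤ (1 + δ) * ((1 - δ) * p) := by
            apply mul_le_mul_of_nonneg_left h1 (by linarith)
          have h5 : (1 + δ) * ((1 - δ) * ((p : ℕ) : ℝ)) = (1 - δ ^ 2) * ((p : ℕ) : ℝ) := by ring
          have h6 : (1 - δ ^ 2) * ((p : ℕ) : ℝ) ≤ ((p : ℕ) : ℝ) := by nlinarith [sq_nonneg δ]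
          linarith
        linarith
      have h3 : δ ^ 2 ≤ (((p : ℕ) : ℝ) / (numClasses S p : ℝ) - 1) ^ 2 := by
        apply pow_le_pow_left₀ hδ.le h2
      rw [div_mul_div_comm, one_mul, div_le_div_iff₀ hp0 (by positivity)]
      nlinarith
    exact Summable.of_nonneg_of_le (fun p => by positivity) hkey (hsum.mul_left _)

lemma Small.negligible {S : Set ℕ} (h : Small S) : Negligible S := by
  rcases h with h | ⟨δ, hδ, h⟩ | ⟨u, q, ε, hu0, hq, hu, hε, h⟩
  · exact h.elim (fun h => h.negligible) (fun h => h.negligible)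
  · exact negligible_of_H ((avoid_biased S δ hδ h).negligibleH 2 (by omega))
  · exact negligible_of_H (((irregular_biased u q hu0 hq hu ε hε).mono h).negligibleH 2 (by omega))

/-- **Main result.** -/
theorem result :
    -- 1. few elements are irregular, unless `r_A` takes large values
    (∀ (u : ℕ → ℝ) (q ε : ℝ), 0 < u 0 → 1 < q → (∀ j, q * u j ≤ u (j + 1)) → 0 < ε →
      ∃ c : ℝ, 0 < c ∧ ∀ᶠ x : ℕ in atTop, ∀ A : Set ℕ, ∃ n, n ≤ 2 * x ∧
        ((A ∩ Irregular u ε ∩ Set.Iic x).ncard : ℝ) ^ 2 *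
          Real.exp (c * {j : ℕ | u j ≤ x}.ncard) ≤ x * (rep A n : ℝ)) ∧
    -- 2. power lower bound for `r_A`, in particular for sets of irregular integers
    (∀ β ε : ℝ, 1 < β → 0 < ε → ∃ δ : ℝ, 0 < δ ∧ ∀ A : Set ℕ,
      ((∃ᶠ x : ℕ in atTop, (x : ℝ) ^ (1 - δ) ≤
          ((A ∩ Irregular (fun j => β ^ j) ε ∩ Set.Iic x).ncard : ℝ) ^ 2) →
        ∃ᶠ n : ℕ in atTop, (n : ℝ) ^ δ ≤ (rep A n : ℝ)) ∧
      (A.Infinite → A ⊆ Irregular (fun j => β ^ j) ε →
        (∃ C : ℝ, ∃ᶠ n : ℕ in atTop,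
          (Nat.nth (fun a => a ∈ A) (n - 1) : ℝ) ≤ C * (n : ℝ) ^ (2 + δ)) →
        ∃ᶠ n : ℕ in atTop, (n : ℝ) ^ δ ≤ (rep A n : ℝ))) ∧
    -- 3. bounded `r_A` and small sets
    (∀ (k : ℕ) (S : Fin k → Set ℕ), (∀ i, Small (S i)) → ∀ A : Set ℕ,
      (∃ r, ∀ n, rep A n ≤ r) →
      Tendsto (fun x : ℕ => ((A ∩ (⋃ i, S i) ∩ Set.Iic x).ncard : ℝ) / Real.sqrt x)
        atTop (𝓝 0) ∧
      (A ⊆ ⋃ i, S i → (∃ᶠ n in atTop, rep A n = 0) ∧
        (A.Infinite → ∀ C : ℝ, ∀ᶠ n : ℕ in atTop,
          C * (n : ℝ) ^ 2 < (Nat.nth (fun a => a ∈ A) (n - 1) : ℝ)))) ∧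
    -- 4. distribution modulo `d`
    (∀ ε : ℝ, 0 < ε → ∃ C : ℝ, 0 < C ∧ ∀ (A : Set ℕ) (x : ℕ), 0 < x → ∃ n, n ≤ 2 * x ∧
      ∀ D : Finset ℕ, (∀ d ∈ D, 0 < d) → (∀ d ∈ D, ∀ d' ∈ D, d ≠ d' → Nat.lcm d d' ≤ x) →
      (∀ d ∈ D, Uneven ε (trunc A x) (fun a => (a : ℝ) / (d : ℝ))) →
      (D.card : ℝ) * ((A ∩ Set.Iic x).ncard : ℝ) ^ 2 ≤ C * x * (rep A n : ℝ)) := by
  refine ⟨?_, ?_, ?_, ?_⟩
  · intro u q ε hu0 hq hu hε
    exact irr_sets_two u q ε hu0 hq hu hε
  · intro β ε hβ hε
    exact irr_power_growth β ε hβ hε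
  · intro k S hS A hr
    have hneg : Negligible (⋃ i, S i) := negligible_iUnion S (fun i => (hS i).negligible)
    have hr' : ∃ r, ∀ m, rep (A ∩ ⋃ i, S i) m ≤ r := by
      obtain ⟨r, hr⟩ := hr
      exact ⟨r, fun m => (rep_mono Set.inter_subset_left m).trans (hr m)⟩
    refine ⟨negligible_tendsto (hneg.mono Set.inter_subset_right) hr', ?_⟩
    intro hA
    exact ⟨negligible_Q1 (hneg.mono hA) hr, fun hinf C => negligible_Q2 (hneg.mono hA) hr hinf C⟩
  · intro ε hε
    exact moduli_sets_two ε hε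

end Pool.Agent.Results.MP_12a1af_nt.IrregularSets
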