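import Mathlib
import Pool.Agent.H397R2.NS6

/-!
# The Erdős–Turán problem (MP_12a1af_nt), Q2 for sets near the squares

`rep A s` is the number `r_A(s)` of ordered pairs `(a, b) ∈ A × A` with `a + b = s`, and
`psi x = log x / log log x`.

Let `F` be a finite set of positive reals and `A` an infinite set of natural numbers such that every
`a ∈ A` lies within `exp (√(psi a) / 200)` of `α n²` for some `α ∈ F` and some natural `n`. If
`a_n ≤ n² exp (√(psi n) / 200)` for infinitely many `n` (for instance if `a_n ≤ C n²` for all `n`,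
which is the hypothesis of Q2) then `r_A(s) ≥ exp (√(psi s) / 200)` for infinitely many `s`.

Method: pairwise coprime moduli `d_1, …, d_m`, each a product of `m` primes `≡ 1 (mod 4)`, with
`m ≍ √(log x / log log x)`. Since `-1 = ι²` modulo `d_j`, multiplication by `ι` exchanges the
classes `n² ≡ y` and `n² ≡ -y`. So the set `S` of the `n` that occur either has many pairs with
`n² + n'² ≡ 0 (mod d_j)` for some `j`, and their sums fall into few integers, or `S` lies, up to few
elements, in a union of half of the classes modulo every `d_j`, so that its density is at most about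
`2^{-m}` by the Chinese remainder theorem.
-/

open Finset Filter Topology Real

namespace Pool.Agent.Results.MP_12a1af_nt.NearSquares

/-- The number `r_A(s)` of ordered pairs `(a, b)` of elements of `A` with `a + b = s`. -/
noncomputable def rep (A : Set ℕ) (s : ℕ) : ℕ :=
  {p : ℕ × ℕ | p.1 ∈ A ∧ p.2 ∈ A ∧ p.1 + p.2 = s}.ncard

/-- `log x / log log x`. -/
noncomputable def psi (x : ℝ) : ℝ := log x / log (log x)

open Pool.Agent.H397R2.NS in
theorem result (F : Finset ℝ) (hF : ∀ α ∈ F, 0 < α) (A : Set ℕ) (hA : A.Infinite)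
    (hnear : ∀ a ∈ A, ∃ α ∈ F, ∃ n : ℕ,
      |(a : ℝ) - α * n ^ 2| ≤ exp (1 / 200 * sqrt (psi a)))
    (hgrow : ∃ᶠ n : ℕ in atTop,
      (Nat.nth (· ∈ A) (n - 1) : ℝ) ≤ n ^ 2 * exp (1 / 200 * sqrt (psi n))) :
    ∃ᶠ s : ℕ in atTop, exp (1 / 200 * sqrt (psi s)) ≤ rep A s := by
  classical
  have hlogX : Tendsto (fun X : ℕ => log (X : ℝ)) atTop atTop :=
    tendsto_log_atTop.comp tendsto_natCast_atTop_atTop
  have hpsi : Tendsto (fun X : ℕ => log (X : ℝ) / log (log (X : ℝ))) atTop atTop :=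
    psi_tendsto.comp hlogX
  have hphi : Tendsto (fun X : ℕ => sqrt (log (X : ℝ) / log (log (X : ℝ)))) atTop atTop :=
    tendsto_sqrt_atTop.comp hpsi
  -- monotonicity of the radius
  have hmono : ∀ᶠ x : ℕ in atTop, ∀ a : ℕ, a ≤ x →
      log (a : ℝ) / log (log (a : ℝ)) ≤ log (x : ℝ) / log (log (x : ℝ)) := by
    have h1 : ∀ᶠ x : ℕ in atTop, ∀ a ∈ Finset.range 16,
        log (a : ℝ) / log (log (a : ℝ)) ≤ log (x : ℝ) / log (log (x : ℝ)) := by
      rw [Filter.eventually_all_finset]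
      intro a _
      exact hpsi.eventually (eventually_ge_atTop _)
    filter_upwards [h1, hlogX.eventually (eventually_ge_atTop (3 : ℝ))] with x hx1 hx2 a hax
    by_cases h : a < 16
    · exact hx1 a (Finset.mem_range.mpr h)
    · have ha16 : (16 : ℝ) ≤ a := by exact_mod_cast (by omega : 16 ≤ a)
      have h2 := psi_le (s := (a : ℝ)) (L := log (x : ℝ)) (K := 1) le_rfl hx2 ha16 (by
        rw [one_mul]
        exact log_le_log (by linarith) (by exact_mod_cast hax))
      rwa [one_mul] at h2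
  have hmono2 : ∀ᶠ x : ℕ in atTop,
      log ((x + 1 : ℕ) : ℝ) / log (log ((x + 1 : ℕ) : ℝ)) ≤
        2 * (log (x : ℝ) / log (log (x : ℝ))) := by
    filter_upwards [hlogX.eventually (eventually_ge_atTop (3 : ℝ)), eventually_ge_atTop 16]
      with x hx1 hx2
    have hx16 : (16 : ℝ) ≤ x := by exact_mod_cast hx2
    refine psi_le (by norm_num) hx1 (by push_cast; linarith) ?_
    calc log ((x + 1 : ℕ) : ℝ) ≤ log ((x : ℝ) ^ 2) := by
          refine log_le_log (by positivity) ?_
          push_cast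
          nlinarith
      _ = 2 * log (x : ℝ) := by rw [log_pow]; norm_num
  -- many elements
  have hinf : (Set.ofPred (· ∈ A)).Infinite := hA
  have hcount : ∃ᶠ x : ℕ in atTop, (F.card : ℝ) *
      (sqrt x * exp (-(1 / 100 * sqrt (log (x : ℝ) / log (log (x : ℝ)))))) ≤
      ({a : ℕ | a ∈ A ∧ a ≤ x}.ncard : ℝ) := by
    have hE : ∀ᶠ x : ℕ in atTop, log (F.card + 1 : ℝ) * 200 ≤
        sqrt (log (x : ℝ) / log (log (x : ℝ))) := hphi.eventually (eventually_ge_atTop _)
    obtain ⟨X0, hX0⟩ := eventually_atTop.mp ((hmono.and hmono2).and hE)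
    rw [frequently_atTop]
    intro N
    obtain ⟨M0, hM0⟩ := eventually_atTop.mp hmono
    obtain ⟨n, hn, hn'⟩ := (frequently_atTop.mp hgrow) (max N X0 + M0 + 1)
    set x : ℕ := Nat.nth (· ∈ A) (n - 1) with hx
    have hnx : n - 1 ≤ x := by
      have h1 : StrictMono (Nat.nth (· ∈ A)) := Nat.nth_strictMono hinf
      exact h1.id_le (n - 1)
    have hxN : N ≤ x := by
      have := le_max_left N X0
      omega
    have hxX0 : X0 ≤ x := by
      have := le_max_right N X0
      omega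
    obtain ⟨⟨h1, h2⟩, h3⟩ := hX0 x hxX0
    refine ⟨x, hxN, ?_⟩
    have hn1 : 1 ≤ n := by omega
    -- count
    have hcard : n ≤ {a : ℕ | a ∈ A ∧ a ≤ x}.ncard := by
      have h5 : ((Finset.range n).image (Nat.nth (· ∈ A)) : Set ℕ) ⊆ {a : ℕ | a ∈ A ∧ a ≤ x} := by
        intro a ha
        rw [Finset.mem_coe, Finset.mem_image] at ha
        obtain ⟨k, hk, rfl⟩ := ha
        rw [Finset.mem_range] at hk
        refine ⟨Nat.nth_mem_of_infinite hinf k, ?_⟩
        exact (Nat.nth_strictMono hinf).monotone (by omega : k ≤ n - 1)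
      have h6 := Set.ncard_le_ncard h5 ((Set.finite_Iic x).subset fun a ha => ha.2)
      rw [Set.ncard_coe_finset, Finset.card_image_of_injective _ (Nat.nth_injective hinf),
        Finset.card_range] at h6
      exact h6
    set Φ : ℝ := sqrt (log (x : ℝ) / log (log (x : ℝ))) with hΦ
    have hn2 : psi n ≤ 2 * (log (x : ℝ) / log (log (x : ℝ))) := by
      have h4 : psi n ≤ log ((x + 1 : ℕ) : ℝ) / log (log ((x + 1 : ℕ) : ℝ)) := by
        refine hM0 (x + 1) ?_ n (by omega)
        omega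
      exact h4.trans h2
    have hΦn : sqrt (psi n) ≤ 2 * Φ := by
      have h4 : sqrt (psi n) ≤ sqrt (2 * (log (x : ℝ) / log (log (x : ℝ)))) := sqrt_le_sqrt hn2
      refine h4.trans ?_
      rw [sqrt_mul (by norm_num)]
      refine mul_le_mul_of_nonneg_right ?_ (sqrt_nonneg _)
      rw [sqrt_le_left (by norm_num)]
      norm_num
    have hsq : sqrt (x : ℝ) ≤ n * exp (1 / 200 * Φ) := by
      rw [sqrt_le_left (by positivity), mul_pow, ← exp_nat_mul]
      refine hn'.trans (mul_le_mul_of_nonneg_left (exp_le_exp.mpr ?_) (by positivity))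
      push_cast
      linarith
    have hFle : (F.card : ℝ) ≤ exp (1 / 200 * Φ) := by
      have h4 : (F.card : ℝ) + 1 ≤ exp (1 / 200 * Φ) := by
        rw [← log_le_iff_le_exp (by positivity)]
        linarith
      linarith
    calc (F.card : ℝ) * (sqrt x * exp (-(1 / 100 * Φ)))
        ≤ exp (1 / 200 * Φ) * ((n * exp (1 / 200 * Φ)) * exp (-(1 / 100 * Φ))) :=
          mul_le_mul hFle (mul_le_mul_of_nonneg_right hsq (exp_pos _).le) (by positivity)
            (exp_pos _).le
      _ = n * exp (1 / 200 * Φ + 1 / 200 * Φ + -(1 / 100 * Φ)) := by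
          rw [exp_add, exp_add]; ring
      _ = n := by
          rw [show 1 / 200 * Φ + 1 / 200 * Φ + -(1 / 100 * Φ) = 0 by ring, exp_zero, mul_one]
      _ ≤ _ := by exact_mod_cast hcard
  -- pigeonhole over `F`
  have hkey : ∃ α ∈ F, ∃ᶠ x : ℕ in atTop,
      sqrt x * exp (-(1 / 100 * sqrt (log x / log (log x)))) ≤
      ({a : ℕ | a ∈ A ∧ a ≤ x ∧ ∃ n : ℕ, |(a : ℝ) - α * n ^ 2| ≤
        exp (1 / 100 * sqrt (log x / log (log x)))}.ncard : ℝ) := by
    by_contra hcon
    push Not at hcon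
    have hcon' : ∀ᶠ x : ℕ in atTop, ∀ α ∈ F,
        ({a : ℕ | a ∈ A ∧ a ≤ x ∧ ∃ n : ℕ, |(a : ℝ) - α * n ^ 2| ≤
          exp (1 / 100 * sqrt (log x / log (log x)))}.ncard : ℝ) <
        sqrt x * exp (-(1 / 100 * sqrt (log x / log (log x)))) := by
      rw [Filter.eventually_all_finset]
      intro α hα
      have := hcon α hα
      simpa [Filter.not_frequently] using this
    have hFne : F.Nonempty := by
      obtain ⟨a, ha⟩ := hA.nonempty
      obtain ⟨α, hα, _⟩ := hnear a ha
      exact ⟨α, hα⟩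
    obtain ⟨x, h3, h1, h2⟩ := (hcount.and_eventually (hcon'.and hmono)).exists
    have h4 : {a : ℕ | a ∈ A ∧ a ≤ x} ⊆ ⋃ α ∈ F, {a : ℕ | a ∈ A ∧ a ≤ x ∧ ∃ n : ℕ,
        |(a : ℝ) - α * n ^ 2| ≤ exp (1 / 100 * sqrt (log x / log (log x)))} := by
      rintro a ⟨ha, hax⟩
      obtain ⟨α, hα, n, hn⟩ := hnear a ha
      simp only [Set.mem_iUnion]
      refine ⟨α, hα, ha, hax, n, hn.trans (exp_le_exp.mpr ?_)⟩
      exact mul_le_mul (by norm_num) (sqrt_le_sqrt (h2 a hax)) (sqrt_nonneg _) (by norm_num)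
    have hfin : ∀ α : ℝ, {a : ℕ | a ∈ A ∧ a ≤ x ∧ ∃ n : ℕ,
        |(a : ℝ) - α * n ^ 2| ≤ exp (1 / 100 * sqrt (log x / log (log x)))}.Finite := fun α =>
      (Set.finite_Iic x).subset fun a ha => ha.2.1
    have h5 : {a : ℕ | a ∈ A ∧ a ≤ x}.ncard ≤ ∑ α ∈ F, {a : ℕ | a ∈ A ∧ a ≤ x ∧ ∃ n : ℕ,
        |(a : ℝ) - α * n ^ 2| ≤ exp (1 / 100 * sqrt (log x / log (log x)))}.ncard := by
      have h6 : {a : ℕ | a ∈ A ∧ a ≤ x} ⊆ (F.biUnion fun α => (hfin α).toFinset : Finset ℕ) := by
        intro a ha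
        have h7 := h4 ha
        simp only [Set.mem_iUnion] at h7
        obtain ⟨α, hα, h8⟩ := h7
        rw [Finset.mem_coe, Finset.mem_biUnion]
        exact ⟨α, hα, (Set.Finite.mem_toFinset _).mpr h8⟩
      refine (Set.ncard_le_ncard h6 (Finset.finite_toSet _)).trans ?_
      rw [Set.ncard_coe_finset]
      refine Finset.card_biUnion_le.trans (Finset.sum_le_sum fun α _ => ?_)
      rw [Set.ncard_eq_toFinset_card _ (hfin α)]
    have h6 : ({a : ℕ | a ∈ A ∧ a ≤ x}.ncard : ℝ) ≤ ∑ α ∈ F, ({a : ℕ | a ∈ A ∧ a ≤ x ∧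
        ∃ n : ℕ, |(a : ℝ) - α * n ^ 2| ≤
          exp (1 / 100 * sqrt (log x / log (log x)))}.ncard : ℝ) := by
      exact_mod_cast h5
    have h7 := Finset.sum_lt_sum_of_nonempty hFne h1
    rw [Finset.sum_const, nsmul_eq_mul] at h7
    linarith
  obtain ⟨α, hα, hfr⟩ := hkey
  refine (part1 α (hF α hα) A hfr).mono fun s hs => le_trans (exp_le_exp.mpr ?_) hs
  exact mul_le_mul_of_nonneg_right (by norm_num) (sqrt_nonneg _)

end Pool.Agent.Results.MP_12a1af_nt.NearSquares
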