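import Pool.Agent.H125R2.ET.Main

/-!
# A thin additive basis with `r_A(n) = O(log n / log log n)`

There is a set `A` of natural numbers such that every large `n` is a sum of two elements of `A`,
`A` has `O(sqrt x)` elements up to `x`, the number `r_A(n)` of ordered representations is
`O(log n / log log n)` for every `n`, and on average `r_A` is bounded in a strong sense:
the number of `n ≤ x` with `r_A(n) ≥ m` is at most `B x exp(-c m log m)`.

Construction: for every scale `k` a prime `p_k` between `2^k` and `2^(k+1)`, and a block `A_k` of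
numbers of size about `p_k^8` with four digits in base `p_k^2`.  The digits come from a fixed
finite set built from three parabolas modulo `p_k` (Ruzsa), and every digit string is followed
by an independent random shift of all the higher digits.  Whatever the shifts, `A_k + A_k` covers
a long interval with bounded multiplicity.  The shifts make the number of hits between different
blocks Poisson-like; a union bound over all `n` and compactness finish the proof.
-/

set_option autoImplicit false

namespace Pool.Agent.Results.MP_12a1af_nt.SparseBasis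

/-- `rep A n = r_A(n)`: the number of ordered pairs `(a,b)` of elements of `A` with `a + b = n` -/
noncomputable def rep (A : Set ℕ) (n : ℕ) : ℕ :=
  {x : ℕ × ℕ | x.1 ∈ A ∧ x.2 ∈ A ∧ x.1 + x.2 = n}.ncard

theorem result : ∃ A : Set ℕ,
    (∃ n₀ : ℕ, ∀ n ≥ n₀, 1 ≤ rep A n) ∧
    (∃ B : ℝ, ∀ x : ℕ, ({a : ℕ | a ∈ A ∧ a ≤ x}.ncard : ℝ) ≤ B * Real.sqrt x) ∧
    (∃ B : ℝ, ∀ n : ℕ, 3 ≤ n → (rep A n : ℝ) ≤ B * (Real.log n / Real.log (Real.log n))) ∧
    (∃ B c : ℝ, 0 < c ∧ ∀ x m : ℕ, 1 ≤ x → 1 ≤ m →
      ({n : ℕ | n ≤ x ∧ m ≤ rep A n}.ncard : ℝ) ≤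
        B * x * Real.exp (-(c * m * Real.log m))) := by
  obtain ⟨A, h1, h2, ⟨B, _, h3⟩, h4⟩ := Pool.Agent.H125R2.ET.thin_basis
  exact ⟨A, h1, h2, ⟨B, h3⟩, h4⟩

/-- In particular `r_A(n) / log n` tends to `0`, although `A` is an asymptotic basis: the stronger
form `limsup r_A(n) / log n > 0` of the Erdos-Turan conjecture is false. -/
theorem ratio_tendsto_zero : ∃ A : Set ℕ,
    (∃ n₀ : ℕ, ∀ n ≥ n₀, 1 ≤ rep A n) ∧
    Filter.Tendsto (fun n : ℕ => (rep A n : ℝ) / Real.log n) Filter.atTop (nhds 0) := by
  obtain ⟨A, h1, -, ⟨B, h3⟩, -⟩ := result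
  refine ⟨A, h1, ?_⟩
  have hlog : Filter.Tendsto (fun n : ℕ => Real.log n) Filter.atTop Filter.atTop :=
    Real.tendsto_log_atTop.comp tendsto_natCast_atTop_atTop
  have hll : Filter.Tendsto (fun n : ℕ => Real.log (Real.log n)) Filter.atTop Filter.atTop :=
    Real.tendsto_log_atTop.comp hlog
  have hB : Filter.Tendsto (fun n : ℕ => B / Real.log (Real.log n)) Filter.atTop (nhds 0) :=
    Filter.Tendsto.const_div_atTop hll B
  refine squeeze_zero' ?_ ?_ hB
  · filter_upwards [hlog.eventually_ge_atTop 1] with n hn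
    positivity
  · filter_upwards [hlog.eventually_ge_atTop 1, Filter.eventually_ge_atTop 3] with n hn hn3
    have := h3 n hn3
    rw [div_le_iff₀ (by linarith)]
    calc (rep A n : ℝ) ≤ B * (Real.log n / Real.log (Real.log n)) := this
      _ = B / Real.log (Real.log n) * Real.log n := by ring

end Pool.Agent.Results.MP_12a1af_nt.SparseBasis
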